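import Pool.Agent.helper81.NW.Spec

set_option autoImplicit false

namespace Pool.Agent.helper81.NW

open Pool.Agent.helper84.NR
open scoped Classical
open Finset

theorem FNW (hWBD : WBD_stmt) (hG8W : G8W_stmt) (hTPW : TPW_stmt) : FNW_stmt := by
  intro V F _ _ M hchi x y
  by_contra hcon
  have h1 := hWBD V F M x y hcon
  have h2 := hG8W V F M x y h1
  have h3 := hTPW V F M x y h1
  omega

end Pool.Agent.helper81.NW
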